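import Mathlib

/-!
Rings over which every square matrix is integral over a central field are basic.
-/

set_option autoImplicit false

namespace Pool.Agent.V1128.Basic

open Polynomial

universe u v

/-- Every square matrix over `R` satisfies a monic polynomial over the field `K`. -/
def MatAlg (K : Type*) (R : Type*) [Field K] [Ring R] [Algebra K R] : Prop :=
  ∀ (n : ℕ) (X : Matrix (Fin n) (Fin n) R), ∃ p : K[X], p.Monic ∧ aeval X p = 0

lemma injective_of_matAlg {K : Type*} {R : Type u} [Field K] [Ring R] [Algebra K R]
    (hK : MatAlg K R) {M A : Type v} [AddCommGroup M] [Module R M] [AddCommGroup A] [Module R A]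
    [Module.Finite R M] (f i : A →ₗ[R] M) (hf : Function.Surjective f)
    (hi : Function.Injective i) : Function.Injective f := by
  classical
  rw [injective_iff_map_eq_zero]
  intro x hx
  obtain ⟨n, m, hm⟩ := Module.Finite.exists_fin (R := R) (M := M)
  have hcoef : ∀ z : M, ∃ c : Fin n → R, ∑ j, c j • m j = z := by
    intro z
    have : z ∈ Submodule.span R (Set.range m) := by rw [hm]; trivial
    exact (Submodule.mem_span_range_iff_exists_fun R).mp this
  choose a ha using fun j => hf (m j)
  choose X hX using fun j => hcoef (i (a j))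
  obtain ⟨v, hv⟩ := hcoef (i x)
  obtain ⟨p, hp, hpX⟩ := hK n (Matrix.of X)
  set Y : Matrix (Fin n) (Fin n) R := Matrix.of X with hY
  let S : ℕ → M := fun k => ∑ j, (Matrix.vecMul v (Y ^ k)) j • m j
  let y : ℕ → A := fun k => Nat.casesOn k x (fun k => ∑ j, (Matrix.vecMul v (Y ^ k)) j • a j)
  have hy0 : y 0 = x := rfl
  have hys : ∀ k, y (k + 1) = ∑ j, (Matrix.vecMul v (Y ^ k)) j • a j := fun k => rfl
  have hiy : ∀ k, i (y k) = S k := by
    intro k
    cases k with
    | zero => simp only [hy0, S, pow_zero, Matrix.vecMul_one, hv]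
    | succ k =>
      rw [hys, map_sum]
      simp only [map_smul, ← hX, Finset.smul_sum, smul_smul, S]
      rw [Finset.sum_comm]
      refine Finset.sum_congr rfl (fun l _ => ?_)
      rw [← Finset.sum_smul, pow_succ, ← Matrix.vecMul_vecMul]
      rfl
  have hfy : ∀ k, f (y (k + 1)) = S k := by
    intro k
    rw [hys, map_sum]
    simp only [map_smul, ha, S]
  have hf0 : f (y 0) = 0 := hx
  set s := p.natDegree with hs
  have hrel : ∑ k ∈ Finset.range (s + 1), (algebraMap K R (p.coeff k)) • S k = 0 := by
    have h1 : ∑ k ∈ Finset.range (s + 1), (algebraMap K R (p.coeff k)) • S k =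
        ∑ l, (Matrix.vecMul v (aeval Y p)) l • m l := by
      rw [aeval_eq_sum_range]
      simp only [S, Finset.smul_sum, smul_smul]
      rw [Finset.sum_comm]
      refine Finset.sum_congr rfl (fun l _ => ?_)
      rw [← Finset.sum_smul]
      congr 1
      have h2 : Matrix.vecMul v (∑ k ∈ Finset.range (s + 1), p.coeff k • Y ^ k) =
          ∑ k ∈ Finset.range (s + 1), Matrix.vecMul v (p.coeff k • Y ^ k) := by
        induction (Finset.range (s + 1)) using Finset.induction_on with
        | empty => simp
        | insert b t hb ih => rw [Finset.sum_insert hb, Finset.sum_insert hb, Matrix.vecMul_add, ih]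
      rw [h2, Finset.sum_apply]
      refine Finset.sum_congr rfl (fun k _ => ?_)
      rw [Matrix.vecMul_smul, Pi.smul_apply, Algebra.smul_def]
    rw [h1, hpX]
    simp
  have key : ∀ t, t ≤ s →
      ∑ k ∈ Finset.range (s - t + 1), (algebraMap K R (p.coeff (k + t))) • y k = 0 := by
    intro t
    induction t with
    | zero =>
      intro _
      apply hi
      rw [map_zero, map_sum]
      simp only [map_smul, hiy]
      simpa using hrel
    | succ t ih =>
      intro ht
      have h1 := congrArg f (ih (by omega))
      rw [map_zero, map_sum] at h1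
      simp only [map_smul] at h1
      rw [Finset.sum_range_succ', hf0, smul_zero, add_zero] at h1
      have h2 : s - t = s - (t + 1) + 1 := by omega
      rw [h2] at h1
      apply hi
      rw [map_zero, map_sum]
      simp only [map_smul, hiy]
      rw [← h1]
      refine Finset.sum_congr rfl (fun k _ => ?_)
      rw [hfy, show k + (t + 1) = k + 1 + t by omega]
  have := key s le_rfl
  rw [Nat.sub_self, zero_add, Finset.sum_range_one, zero_add] at this
  have hc : p.coeff s = 1 := hp
  rw [hc, map_one, one_smul] at this
  exact this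

lemma MatAlg.op {K : Type*} {R : Type u} [Field K] [Ring R] [Algebra K R] (hK : MatAlg K R) :
    MatAlg K Rᵐᵒᵖ := by
  intro n X
  let τ : Matrix (Fin n) (Fin n) Rᵐᵒᵖ → Matrix (Fin n) (Fin n) R :=
    fun Z => Matrix.of (fun a b => (Z b a).unop)
  have τinj : Function.Injective τ := by
    intro Z W h
    ext a b
    have := congrFun (congrFun h b) a
    exact congrArg MulOpposite.op this
  have τmul : ∀ Z W, τ (Z * W) = τ W * τ Z := by
    intro Z W
    ext a b
    simp only [τ, Matrix.of_apply, Matrix.mul_apply, Finset.unop_sum, MulOpposite.unop_mul]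
  have τone : τ 1 = 1 := by
    ext a b
    simp only [τ, Matrix.of_apply, Matrix.one_apply]
    split_ifs with h1 h2 h2
    · rfl
    · exact absurd h1.symm h2
    · exact absurd h2.symm h1
    · rfl
  have τpow : ∀ k, τ (X ^ k) = τ X ^ k := by
    intro k
    induction k with
    | zero => rw [pow_zero, pow_zero, τone]
    | succ k ih => rw [pow_succ, τmul, ih, ← pow_succ']
  obtain ⟨p, hp, h0⟩ := hK n (τ X)
  refine ⟨p, hp, ?_⟩
  apply τinj
  have hz : τ 0 = 0 := by ext a b; rfl
  rw [hz, ← h0, aeval_eq_sum_range, aeval_eq_sum_range]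
  simp only [← τpow]
  ext a b
  simp only [τ, Matrix.of_apply, Matrix.sum_apply, Finset.unop_sum, Matrix.smul_apply,
    MulOpposite.unop_smul]

end Pool.Agent.V1128.Basic
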