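import Mathlib
import Pool.Agent.TH163.GolodAny

/-!
Golod's construction for matrices of all sizes at once over a countable field.
-/

set_option autoImplicit false

namespace Pool.Agent.V1128.Basic

open Finset Module MonoidAlgebra Pool.Agent.Helper884.Golod Pool.Agent.TH163.GolodAny

lemma exists_const_bound (c : ℕ) : ∃ n0 : ℕ, ∀ n, n0 ≤ n → (c : ℝ) ≤ (1/15) * (5/4)^n := by
  have h1 : Filter.Tendsto (fun n : ℕ => (5/4 : ℝ)^n) Filter.atTop Filter.atTop :=
    tendsto_pow_atTop_atTop_of_one_lt (by norm_num)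
  have h2 := h1.eventually (Filter.eventually_ge_atTop (15 * (c : ℝ)))
  obtain ⟨n0, hn0⟩ := Filter.eventually_atTop.mp h2
  refine ⟨n0, fun n hn => ?_⟩
  have := hn0 n hn
  linarith

theorem golod_all (K : Type) [Field K] [Countable K] : ∃ I : Ideal (T K), I.IsTwoSided ∧
    (∀ f ∈ I, f.coeff 1 = 0) ∧
    (∀ (n : ℕ) (M : Matrix (Fin n) (Fin n) (T K)), (∀ a b, M a b ∈ Ge K 1) →
      ∃ N : ℕ, ∀ a b, (M ^ N) a b ∈ I) ∧
    (∀ n : ℕ, ∃ w : FreeMonoid (Fin 2), w.length = n ∧ (single w (1:K) : T K) ∉ I) := by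
  classical
  have : Countable (T K) := (coeffEquiv (R := K) (M := FreeMonoid (Fin 2))).countable_iff.mpr
    inferInstance
  let X := Σ n : ℕ, {M : Matrix (Fin n) (Fin n) (T K) // ∀ a b, M a b ∈ Ge K 1}
  have : Nonempty X := ⟨⟨0, ⟨0, fun a b => by simp⟩⟩⟩
  have hcM : ∀ n, Countable (Matrix (Fin n) (Fin n) (T K)) := fun n =>
    (inferInstance : Countable (Fin n → Fin n → T K))
  have : Countable X := inferInstance
  obtain ⟨W, hW⟩ := exists_surjective_nat X
  -- the relations
  let E : (k N : ℕ) → (Fin (W k).1 × Fin (W k).1) → T K := fun k N ab =>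
    ((W k).2.1 ^ N) ab.1 ab.2
  have hE : ∀ k N ab, E k N ab ∈ Ge K N := by
    intro k N ab
    exact matrix_pow_Ge _ (W k).2.2 _ _ _
  choose g0 hg0 using exists_const_bound
  let g : ℕ → ℕ := fun k => g0 ((W k).1 * (W k).1)
  obtain ⟨es, es0, es1⟩ : ∃ es : ℕ → ℕ, es 0 = g 0 + 1 ∧
      ∀ k, es (k+1) = max (max (es k + 1) (mdd (E k (es k)))) (g (k+1)) :=
    ⟨fun k => Nat.rec (g 0 + 1) (fun k e => max (max (e+1) (mdd (E k e))) (g (k+1))) k, rfl,
      fun _ => rfl⟩
  have es_mono : StrictMono es := strictMono_nat_of_lt_succ (fun k => by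
    rw [es1]
    exact lt_of_lt_of_le (Nat.lt_succ_self _) ((le_max_left _ _).trans (le_max_left _ _)))
  have es_g : ∀ k, g k ≤ es k := by
    intro k
    rcases k with _ | k
    · rw [es0]; omega
    · rw [es1]; exact le_max_right _ _
  have hes : ∀ k, (((W k).1 * (W k).1 : ℕ) : ℝ) ≤ (1/15) * (5/4)^(es k) :=
    fun k => hg0 _ _ (es_g k)
  let idx : ℕ → ℕ := fun j => Nat.findGreatest (fun k => es k ≤ j) j
  have hidx : ∀ k j, es k ≤ j → j < es (k+1) → idx j = k := by
    intro k j h1 h2
    have hkj : k ≤ j := (es_mono.le_apply).trans h1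
    apply le_antisymm
    · by_contra h3
      push Not at h3
      have h4 := Nat.findGreatest_spec (P := fun k => es k ≤ j) (n := j) (m := k) hkj h1
      have h5 : es (k+1) ≤ es (Nat.findGreatest (fun k => es k ≤ j) j) := es_mono.monotone h3
      omega
    · exact Nat.le_findGreatest (P := fun k => es k ≤ j) hkj h1
  have hidx2 : ∀ j, es 0 ≤ j → es (idx j) ≤ j := fun j hj =>
    Nat.findGreatest_spec (P := fun k => es k ≤ j) (n := j) (m := 0) (Nat.zero_le _) hj
  let R : ℕ → Submodule K (T K) := fun j => if j < es 0 then ⊥ else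
    Submodule.span K (Set.range (fun κ => comp j (E (idx j) (es (idx j)) κ)))
  have hR : ∀ n, R n ≤ D K n := by
    intro n
    simp only [R]
    split_ifs with h
    · exact bot_le
    · rw [Submodule.span_le]
      rintro _ ⟨κ, rfl⟩
      exact comp_mem n _
  have hRr : ∀ n, (finrank K (R n) : ℝ) ≤ (1/15) * (5/4)^n := by
    intro n
    by_cases h : n < es 0
    · have : R n = ⊥ := if_pos h
      rw [this]
      have h0 : finrank K (⊥ : Submodule K (T K)) = 0 := finrank_bot K (T K)
      rw [h0, Nat.cast_zero]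
      positivity
    · have hRn : R n = Submodule.span K (Set.range (fun κ =>
          comp n (E (idx n) (es (idx n)) κ))) := if_neg h
      rw [hRn]
      have h1 := finrank_range_le_card (R := K) (fun κ => comp n (E (idx n) (es (idx n)) κ))
      rw [Fintype.card_prod, Fintype.card_fin] at h1
      have h2 : ((finrank K (Submodule.span K (Set.range (fun κ =>
          comp n (E (idx n) (es (idx n)) κ)))) : ℕ) : ℝ) ≤
          (((W (idx n)).1 * (W (idx n)).1 : ℕ) : ℝ) := by
        exact_mod_cast h1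
      refine h2.trans ((hes (idx n)).trans ?_)
      apply mul_le_mul_of_nonneg_left _ (by norm_num)
      exact pow_le_pow_right₀ (by norm_num) (hidx2 n (by omega))
  have hlt := Jd_lt' (K := K) (D := D K) (R := R) finrank_D D_mul D_zero hR hRr
  refine ⟨It R, inferInstance, ?_, ?_, ?_⟩
  · intro f hf
    have h1 := comp_mem_Jd R hR f hf 0
    have h2 : Jd (D K) R 0 = ⊥ := rfl
    rw [h2, Submodule.mem_bot] at h1
    have h3 := comp_coeff 0 f 1
    rw [h1] at h3
    simpa using h3.symm
  · intro n M hM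
    obtain ⟨k, hk⟩ := hW ⟨n, ⟨M, hM⟩⟩
    refine ⟨es k, ?_⟩
    suffices h : ∀ ab, E k (es k) ab ∈ It R by
      have h' : ∀ a b, ((W k).2.1 ^ (es k)) a b ∈ It R := fun a b => h (a, b)
      clear_value E g
      revert h'
      generalize es k = N
      rw [hk]
      exact fun h' => h'
    intro ab
    rw [mem_It]
    rw [sum_comp (E k (es k) ab) (es (k+1)) (by
      intro w hw
      have h1 := lt_mdd _ ab w hw
      rw [es1]
      exact lt_of_lt_of_le h1 ((le_max_right _ _).trans (le_max_left _ _)))]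
    apply Submodule.sum_mem
    intro j hj
    rw [Finset.mem_range] at hj
    rcases Nat.lt_or_ge j (es k) with h | h
    · rw [comp_eq_zero_of_Ge (hE k (es k) ab) h]; exact Submodule.zero_mem _
    · have h1 := hidx k j h hj
      have h2 : es 0 ≤ j := (es_mono.monotone (Nat.zero_le k)).trans h
      have h3 : comp j (E k (es k) ab) ∈ R j := by
        have hRj : R j = Submodule.span K (Set.range (fun κ =>
          comp j (E (idx j) (es (idx j)) κ))) := if_neg (by omega)
        rw [hRj, h1]
        exact Submodule.subset_span ⟨ab, rfl⟩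
      obtain ⟨j', rfl⟩ : ∃ j', j = j' + 1 := ⟨j - 1, by omega⟩
      exact (le_iSup (Jd (D K) R) (j'+1)) (R_le D_zero j' h3)
  · intro n
    by_contra hcon
    push Not at hcon
    apply (hlt n).not_ge
    rw [D_eq_span, Submodule.span_le]
    rintro _ ⟨w, hw, rfl⟩
    have h1 := comp_mem_Jd R hR _ ((mem_It R _).mp (hcon w hw)) n
    rwa [comp_of_mem_D (n := n) (by
      rw [D_eq_span]; exact Submodule.subset_span ⟨w, hw, rfl⟩), if_pos rfl] at h1

end Pool.Agent.V1128.Basic
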