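import Mathlib

/-!
A nil two-sided ideal of a two-sided noetherian ring is nilpotent (Levitzki).
-/

set_option autoImplicit false

namespace Pool.Agent.V1128.Basic

variable {S : Type*} [Ring S]

/-- all products of `m` elements of `W` vanish -/
def NilpL (W : Ideal S) (m : ℕ) : Prop :=
  ∀ l : List S, (∀ s ∈ l, s ∈ W) → l.length = m → l.prod = 0

lemma pair_prod {W V : Ideal S} (h : ∀ u ∈ V, ∀ v ∈ V, u * v ∈ W) :
    ∀ (m : ℕ) (l : List S), (∀ s ∈ l, s ∈ V) → l.length = 2 * m →
      ∃ l' : List S, (∀ s ∈ l', s ∈ W) ∧ l'.length = m ∧ l'.prod = l.prod := by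
  intro m
  induction m with
  | zero =>
    intro l _ hl
    have : l = [] := List.length_eq_zero_iff.mp (by simpa using hl)
    subst this
    exact ⟨[], by simp, rfl, rfl⟩
  | succ m ih =>
    intro l hl hlen
    match l, hl, hlen with
    | [], _, hlen => simp at hlen
    | [a], _, hlen => simp at hlen; omega
    | a :: b :: l, hl, hlen =>
      obtain ⟨l', h1, h2, h3⟩ := ih l (fun s hs => hl s (by simp [hs])) (by
        simp only [List.length_cons] at hlen; omega)
      refine ⟨(a * b) :: l', ?_, by simp [h2], ?_⟩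
      · intro s hs
        rcases List.mem_cons.mp hs with rfl | hs
        · exact h a (hl a (by simp)) b (hl b (by simp))
        · exact h1 s hs
      · rw [List.prod_cons, h3, List.prod_cons, List.prod_cons, mul_assoc]

theorem nil_nilpotent [IsNoetherianRing S] [IsNoetherianRing Sᵐᵒᵖ] (N : Ideal S)
    (hN2 : ∀ a ∈ N, ∀ s, a * s ∈ N) (hnil : ∀ a ∈ N, IsNilpotent a) :
    ∃ m : ℕ, NilpL N m := by
  classical
  let P : Set (Ideal S) := {W | W ≤ N ∧ (∀ a ∈ W, ∀ s, a * s ∈ W) ∧ ∃ m, NilpL W m}
  have hP : P.Nonempty := by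
    refine ⟨⊥, bot_le, ?_, 1, ?_⟩
    · intro a ha s
      rw [Submodule.mem_bot] at ha ⊢
      rw [ha, zero_mul]
    · intro l hl hlen
      obtain ⟨a, rfl⟩ := List.length_eq_one_iff.mp hlen
      have := hl a (by simp)
      rw [Submodule.mem_bot] at this
      simp [this]
  obtain ⟨W, ⟨hWN, hW2, m, hWm⟩, hmax⟩ := WellFounded.has_min
    (wellFounded_gt : WellFounded ((· > ·) : Ideal S → Ideal S → Prop)) P hP
  by_cases hNW : N ≤ W
  · exact ⟨m, fun l hl hlen => hWm l (fun s hs => hNW (hl s hs)) hlen⟩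
  exfalso
  obtain ⟨a0, ha0N, ha0W⟩ := SetLike.not_le_iff_exists.mp hNW
  -- right annihilators modulo `W`
  let r : S → Ideal Sᵐᵒᵖ := fun a =>
    { carrier := {t | a * t.unop ∈ W}
      add_mem' := by
        intro t u ht hu
        show a * (t + u).unop ∈ W
        rw [MulOpposite.unop_add, mul_add]
        exact W.add_mem ht hu
      zero_mem' := by
        show a * (0 : Sᵐᵒᵖ).unop ∈ W
        simp
      smul_mem' := by
        intro c t ht
        show a * (c • t).unop ∈ W
        rw [smul_eq_mul, MulOpposite.unop_mul, ← mul_assoc]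
        exact hW2 _ ht _ }
  have hr : ∀ a t, t ∈ r a ↔ a * t.unop ∈ W := fun a t => Iff.rfl
  obtain ⟨_, ⟨a, haN, haW, rfl⟩, hamax⟩ := WellFounded.has_min
    (wellFounded_gt : WellFounded ((· > ·) : Ideal Sᵐᵒᵖ → Ideal Sᵐᵒᵖ → Prop))
    {I | ∃ a, a ∈ N ∧ a ∉ W ∧ I = r a} ⟨r a0, a0, ha0N, ha0W, rfl⟩
  have haxa : ∀ x, a * (x * a) ∈ W := by
    intro x
    have hxa : x * a ∈ N := N.mul_mem_left x haN
    obtain ⟨k0, hk0⟩ := hnil _ hxa
    have hex : ∃ k, (x * a) ^ k ∈ W := ⟨k0, by rw [hk0]; exact W.zero_mem⟩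
    have hk := Nat.find_spec hex
    have hkmin := fun k h => Nat.find_min hex (m := k) h
    set k := Nat.find hex with hkdef
    rcases k with _ | _ | k
    · exfalso
      apply haW
      rw [pow_zero] at hk
      have := W.mul_mem_left a hk
      rwa [mul_one] at this
    · rw [zero_add, pow_one] at hk
      exact W.mul_mem_left a hk
    · have hb := hkmin (k + 1) (by omega)
      have hbN : (x * a) ^ (k + 1) ∈ N := by
        rw [pow_succ]; exact N.mul_mem_left _ hxa
      have hle : r a ≤ r ((x * a) ^ (k + 1)) := by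
        intro t ht
        rw [hr] at ht ⊢
        rw [pow_succ, mul_assoc, mul_assoc]
        exact W.mul_mem_left _ (W.mul_mem_left _ ht)
      have hnlt := hamax (r ((x * a) ^ (k + 1))) ⟨_, hbN, hb, rfl⟩
      have hge : r ((x * a) ^ (k + 1)) ≤ r a := by
        by_contra hcon
        exact hnlt (lt_of_le_not_ge hle hcon)
      have : MulOpposite.op (x * a) ∈ r ((x * a) ^ (k + 1)) := by
        rw [hr, MulOpposite.unop_op, ← pow_succ]
        exact hk
      exact hge this
  -- the larger ideal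
  let gens : Set S := (W : Set S) ∪ Set.range (fun s => a * s)
  let V : Ideal S := Ideal.span gens
  have hgg : ∀ g ∈ gens, ∀ d, ∀ h ∈ gens, g * d * h ∈ W := by
    rintro g (hg | ⟨s, rfl⟩) d h (hh | ⟨t, rfl⟩)
    · exact W.mul_mem_left _ hh
    · exact hW2 _ (hW2 _ hg d) _
    · exact W.mul_mem_left _ hh
    · have h1 := hW2 _ (haxa (s * d)) t
      have h2 : a * s * d * (a * t) = a * (s * d * a) * t := by simp only [mul_assoc]
      show a * s * d * (a * t) ∈ W
      rw [h2]; exact h1
  have hA : ∀ v ∈ V, ∀ g ∈ gens, ∀ d, g * d * v ∈ W := by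
    intro v hv
    refine Submodule.span_induction (p := fun v _ => ∀ g ∈ gens, ∀ d, g * d * v ∈ W)
      ?_ ?_ ?_ ?_ hv
    · intro h hh g hg d
      exact hgg g hg d h hh
    · intro g hg d
      rw [mul_zero]; exact W.zero_mem
    · intro x y _ _ hx hy g hg d
      rw [mul_add]
      exact W.add_mem (hx g hg d) (hy g hg d)
    · intro c x _ hx g hg d
      have := hx g hg (d * c)
      rwa [smul_eq_mul, ← mul_assoc, mul_assoc g d c]
  have hB : ∀ u ∈ V, ∀ v ∈ V, u * v ∈ W := by
    intro u hu v hv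
    refine Submodule.span_induction (p := fun u _ => u * v ∈ W) ?_ ?_ ?_ ?_ hu
    · intro g hg
      have := hA v hv g hg 1
      rwa [mul_one] at this
    · rw [zero_mul]; exact W.zero_mem
    · intro x y _ _ hx hy
      rw [add_mul]; exact W.add_mem hx hy
    · intro c x _ hx
      rw [smul_eq_mul, mul_assoc]
      exact W.mul_mem_left _ hx
  have hV2 : ∀ u ∈ V, ∀ s, u * s ∈ V := by
    intro u hu s
    refine Submodule.span_induction (p := fun u _ => u * s ∈ V) ?_ ?_ ?_ ?_ hu
    · rintro g (hg | ⟨t, rfl⟩)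
      · exact Submodule.subset_span (Or.inl (hW2 g hg s))
      · exact Submodule.subset_span (Or.inr ⟨t * s, (mul_assoc a t s).symm⟩)
    · rw [zero_mul]; exact V.zero_mem
    · intro x y _ _ hx hy
      rw [add_mul]; exact V.add_mem hx hy
    · intro c x _ hx
      rw [smul_eq_mul, mul_assoc]
      exact V.mul_mem_left _ hx
  have hVN : V ≤ N := by
    refine Submodule.span_le.mpr ?_
    rintro g (hg | ⟨t, rfl⟩)
    · exact hWN hg
    · exact hN2 a haN t
  have hVP : V ∈ P := by
    refine ⟨hVN, hV2, 2 * m, ?_⟩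
    intro l hl hlen
    obtain ⟨l', h1, h2, h3⟩ := pair_prod hB m l hl hlen
    rw [← h3]
    exact hWm l' h1 h2
  have hWV : W < V := by
    refine lt_of_le_of_ne (fun w hw => Submodule.subset_span (Or.inl hw)) ?_
    intro h
    apply haW
    rw [h]
    exact Submodule.subset_span (Or.inr ⟨1, mul_one a⟩)
  exact hmax V hVP hWV

end Pool.Agent.V1128.Basic
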